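import Pool.Agent.Lib.MP_2b5695_lc.Up.Prob

/-!
The negated form of Q1 for `i` implies the negated form of Q1 for `0` relative to an oracle in
`Σ_i^p`.
-/

namespace Pool.Agent.Lib.MP_2b5695_lc.Up

open Alg

variable {ι κ κ' β : Ty} {A : Set ι.El} {B : Set κ.El} {B' : Set κ'.El}

section tr

variable (cF : List Bool × List Bool → Bool) (rF : List Bool → List Bool)

/-- the function that is computed with a table -/
def FF (z : List Bool × List Bool) : Bool × List Bool := (cF (z.1, norm z.2), rF (norm z.2))

theorem pf_FF {cF : List Bool × List Bool → Bool} {rF : List Bool → List Bool}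
    (hc : PF B (.prod .word .word) .bool cF) (hr : PF B .word .word rF) :
    PF B (.prod .word .word) (.prod .bool .word) (FF cF rF) := by
  have h1 : PF B (.prod .word .word) .word (fun z => norm z.2) := (PF.snd _ _).norm
  exact (hc.comp ((PF.fst _ _).pair h1)).pair (hr.comp h1)

end tr

/-- the input word -/
noncomputable def inp (pad : Polynomial ℕ) (X : List Bool) : List Bool :=
  enc (.prod .word .word) (X, List.replicate (pad.eval X.length) true) ++ [true]

theorem pf_inp (pad : Polynomial ℕ) : PF A .word .word (inp pad) := by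
  have h1 : PF A .word .word (fun X => List.replicate X.length true) :=
    (PF.map (b := .bool) (c := .bool) (φ := fun _ => true) (PF.id .word) (PF.tt _)).of_eq
      fun v => by rw [List.map_const']
  exact (PF.enc (.prod .word .word) ((PF.id .word).pair (PF.polyList h1 pad))).append
    (PF.const .word [true])

theorem bits_inp (pad : Polynomial ℕ) (X : List Bool) :
    Nat.bits (val (inp pad X)) = inp pad X := bits_append_true _

theorem inpOf_inp (pad : Polynomial ℕ) (X : List Bool) : inpOf (inp pad X) = X := by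
  rw [inpOf, inp, List.dropLast_concat, dec_enc]

theorem length_inp (pad : Polynomial ℕ) (X : List Bool) :
    pad.eval X.length + 1 ≤ (inp pad X).length := by
  have h1 := length_enc_prod (a := .word) (b := .word)
    (X, List.replicate (pad.eval X.length) true)
  have h2 := length_enc_list (b := .bool) (List.replicate (pad.eval X.length) true)
  rw [List.length_replicate] at h2
  rw [inp, List.length_append, List.length_singleton]
  have h3 : (enc Ty.word (List.replicate (pad.eval X.length) true)).length =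
    (enc (.list .bool) (List.replicate (pad.eval X.length) true)).length := rfl
  simp only at h1
  omega

/-- the solution of the given problem -/
def out (κ β : Ty) (Y : List Bool) : List Bool := bif Y.isEmpty then [] else (solOf κ β Y).1.2

theorem pf_out : PF A .word .word (out κ β) := by
  have hs := pf_solOf (A := A) (κ := κ) (β := β) (PF.id .word)
  exact (PF.id Ty.word).isEmpty.cond' (PF.nil _ _) hs.fst'.snd'

open Classical in
/-- the table -/
noncomputable def tabl (B : Set κ.El) (QF : List Bool × List Bool → List κ.El) (G : κ.El → β.El)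
    (z : List Bool × List Bool) : List (κ.El × β.El) :=
  (QF z).flatMap fun q => bif decide (q ∈ B) then [(q, G q)] else []

/-- the solution with the table -/
noncomputable def lft (B : Set κ.El) (QF : List Bool × List Bool → List κ.El) (G : κ.El → β.El)
    (z : List Bool × List Bool) : List Bool :=
  bif z.2.isEmpty then [] else enc (Ty.sol κ β) (z, tabl B QF G z) ++ [true]

theorem mem_tabl {QF : List Bool × List Bool → List κ.El} {G : κ.El → β.El}
    {z : List Bool × List Bool} {e : κ.El × β.El} :
    e ∈ tabl B QF G z ↔ e.1 ∈ QF z ∧ e.1 ∈ B ∧ e.2 = G e.1 := by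
  classical
  rw [tabl, List.mem_flatMap]
  constructor
  · rintro ⟨q, hq, he⟩
    by_cases h : q ∈ B
    · rw [decide_eq_true h, cond_true, List.mem_singleton] at he
      rw [he]
      exact ⟨hq, h, rfl⟩
    · rw [decide_eq_false h, cond_false] at he
      simp at he
  · rintro ⟨h1, h2, h3⟩
    refine ⟨e.1, h1, ?_⟩
    rw [decide_eq_true h2, cond_true, List.mem_singleton, ← h3]

open Classical in
theorem pf_lft (hB : PF B' κ .bool (fun q => decide (q ∈ B)))
    {QF : List Bool × List Bool → List κ.El} {G : κ.El → β.El}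
    (hQF : PF B' (.prod .word .word) (.list κ) QF) (hG : PF B' κ β G) :
    PF B' (.prod .word .word) .word (lft B QF G) := by
  have h1 : PF B' (.prod κ (.prod .word .word)) (.list (.prod κ β)) (fun w =>
      bif decide (w.1 ∈ B) then [(w.1, G w.1)] else []) :=
    (hB.comp (PF.fst _ _)).cond' (((PF.fst _ _).pair (hG.comp (PF.fst _ _))).cons'
      (PF.nil _ _)) (PF.nil _ _)
  have h2 : PF B' (.prod .word .word) (.list (.prod κ β)) (tabl B QF G) :=
    (PF.flatMap (b := κ) (c := .prod κ β) (φ := fun w : κ.El × (List Bool × List Bool) =>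
      bif decide (w.1 ∈ B) then [(w.1, G w.1)] else []) hQF h1).of_eq fun z => rfl
  have h3 : PF B' (.prod .word .word) .bool (fun z => z.2.isEmpty) :=
    PF.isEmpty (b := .bool) (PF.snd .word .word)
  exact h3.cond' (PF.nil _ _) ((PF.enc (Ty.sol κ β) ((PF.id _).pair h2)).append
    (PF.const .word [true]))

section main

variable {V : (Ty.sol κ β).El → Bool × List Bool} {Q : (Ty.sol κ β).El → List κ.El}
  {QF : List Bool × List Bool → List κ.El} {G : κ.El → β.El}
  {R : κ.El × β.El → Prop} {cF : List Bool × List Bool → Bool} {rF : List Bool → List Bool}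
  {C' : ℕ → ℕ → Prop} {ρ' : ℕ → ℕ}

open Classical in
/-- what a feasible solution gives -/
theorem out_spec' (hVQ : ∀ z T,
      ((∀ q ∈ Q (z, T), inT q T = decide (q ∈ B)) → V (z, T) = FF cF rF z) ∧
      ((∀ q ∈ QF z, inT q T = decide (q ∈ B)) → ∀ q ∈ Q (z, T), q ∈ QF z))
    (hRB : ∀ q u, R (q, u) → q ∈ B)
    (hcF : ∀ x y : ℕ, C' x y ↔ cF (Nat.bits x, Nat.bits y) = true)
    (hrF : ∀ y : ℕ, val (rF (Nat.bits y)) = ρ' y) (h0 : ∀ x, C' x 0) (pad : Polynomial ℕ)
    (x y : ℕ) (h : feasN V Q B R (val (inp pad (Nat.bits x))) y) :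
    C' x (val (out κ β (Nat.bits y))) ∧
      ρ' (val (out κ β (Nat.bits y))) = costN V (rF []) y := by
  rw [feasN, bits_inp, feasP] at h
  simp only at h
  cases he : (Nat.bits y).isEmpty with
  | true =>
    rw [out, costN, costW, he, cond_true, cond_true]
    refine ⟨h0 x, ?_⟩
    have := hrF 0
    rw [Nat.zero_bits] at this
    rw [this]
    rfl
  | false =>
    rw [he] at h
    simp only [Bool.false_eq_true, false_or] at h
    obtain ⟨h1, h2, h3⟩ := h
    rw [out, costN, costW, he, cond_false, cond_false]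
    set s := solOf κ β (Nat.bits y) with hs
    simp only [checkB, Bool.and_eq_true, decide_eq_true_eq] at h1
    obtain ⟨_, h4, h5⟩ := h1
    rw [inpOf_inp, ← hs] at h4
    have h6 : ∀ q ∈ Q s, inT q s.2 = decide (q ∈ B) := by
      intro q hq
      rcases h3 q hq with h7 | h7
      · rw [h7]
        obtain ⟨e, he1, he2⟩ := inT_iff.1 h7
        have h8 : q ∈ B := by
          rw [← he2]
          exact hRB e.1 e.2 (h2 e he1)
        rw [decide_eq_true h8]
      · rw [decide_eq_false h7]
        cases h8 : inT q s.2 with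
        | false => rfl
        | true =>
          obtain ⟨e, he1, he2⟩ := inT_iff.1 h8
          exact absurd (by rw [← he2]; exact hRB e.1 e.2 (h2 e he1)) h7
    have h7 : V s = FF cF rF s.1 := (hVQ s.1 s.2).1 h6
    rw [← hs, h7, FF] at h5
    simp only at h5
    rw [h7, FF]
    simp only
    rw [norm_eq] at h5 ⊢
    rw [h4] at h5
    exact ⟨(hcF _ _).2 h5, (hrF _).symm⟩

open Classical in
/-- feasible solutions with the table -/
theorem lft_spec (hVQ : ∀ z T,
      ((∀ q ∈ Q (z, T), inT q T = decide (q ∈ B)) → V (z, T) = FF cF rF z) ∧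
      ((∀ q ∈ QF z, inT q T = decide (q ∈ B)) → ∀ q ∈ Q (z, T), q ∈ QF z))
    (hG : ∀ q, q ∈ B → R (q, G q))
    (hcF : ∀ x y : ℕ, C' x y ↔ cF (Nat.bits x, Nat.bits y) = true)
    (hrF : ∀ y : ℕ, val (rF (Nat.bits y)) = ρ' y) (pad : Polynomial ℕ)
    (x z : ℕ) (h : C' x z)
    (hlen : (lft B QF G (Nat.bits x, Nat.bits z)).length + 1 ≤
      (inp pad (Nat.bits x)).length) :
    feasN V Q B R (val (inp pad (Nat.bits x))) (val (lft B QF G (Nat.bits x, Nat.bits z))) ∧
      costN V (rF []) (val (lft B QF G (Nat.bits x, Nat.bits z))) = ρ' z := by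
  cases he : (Nat.bits z).isEmpty with
  | true =>
    have h1 : z = 0 := bits_eq_nil.1 (List.isEmpty_iff.1 he)
    have h2 : lft B QF G (Nat.bits x, Nat.bits z) = [] := by rw [lft, he, cond_true]
    have h3 : Nat.bits (val ([] : List Bool)) = [] := by rw [val, Nat.zero_bits]
    rw [h2, feasN, feasP, costN, costW, h3]
    refine ⟨Or.inl rfl, ?_⟩
    have := hrF 0
    rw [Nat.zero_bits] at this
    rw [h1, ← this]
    rfl
  | false =>
    have h2 : lft B QF G (Nat.bits x, Nat.bits z) = enc (Ty.sol κ β)
        ((Nat.bits x, Nat.bits z), tabl B QF G (Nat.bits x, Nat.bits z)) ++ [true] := by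
      rw [lft, he, cond_false]
    have h3 : Nat.bits (val (lft B QF G (Nat.bits x, Nat.bits z))) =
        lft B QF G (Nat.bits x, Nat.bits z) := by rw [h2, bits_append_true]
    set T := tabl B QF G (Nat.bits x, Nat.bits z) with hT
    have h4 : solOf κ β (lft B QF G (Nat.bits x, Nat.bits z)) =
        ((Nat.bits x, Nat.bits z), T) := by
      rw [h2, solOf, List.dropLast_concat, dec_enc]
    have h5 : (lft B QF G (Nat.bits x, Nat.bits z)).isEmpty = false := by
      rw [h2]
      simp
    have h6 : ∀ q, q ∈ QF (Nat.bits x, Nat.bits z) → inT q T = decide (q ∈ B) := by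
      intro q hq
      by_cases hqB : q ∈ B
      · rw [decide_eq_true hqB, inT_iff]
        exact ⟨(q, G q), mem_tabl.2 ⟨hq, hqB, rfl⟩, rfl⟩
      · rw [decide_eq_false hqB]
        cases h8 : inT q T with
        | false => rfl
        | true =>
          obtain ⟨e, he1, he2⟩ := inT_iff.1 h8
          exact absurd (by rw [← he2]; exact (mem_tabl.1 he1).2.1) hqB
    have h7 : ∀ q ∈ Q ((Nat.bits x, Nat.bits z), T), inT q T = decide (q ∈ B) := fun q hq =>
      h6 q ((hVQ _ T).2 h6 q hq)
    have h8 : V ((Nat.bits x, Nat.bits z), T) = FF cF rF (Nat.bits x, Nat.bits z) :=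
      (hVQ _ T).1 h7
    have h9 : FF cF rF (Nat.bits x, Nat.bits z) = (cF (Nat.bits x, Nat.bits z),
        rF (Nat.bits z)) := by rw [FF, norm_bits]
    rw [feasN, feasP, costN, costW, bits_inp, h3]
    simp only
    rw [h4, h5, cond_false, h8, h9]
    refine ⟨Or.inr ⟨?_, ?_, ?_⟩, hrF z⟩
    · simp only [checkB, Bool.and_eq_true, decide_eq_true_eq]
      rw [h4, inpOf_inp, h8, h9]
      exact ⟨hlen, rfl, (hcF _ _).1 h⟩
    · intro e he
      obtain ⟨_, h10, h11⟩ := mem_tabl.1 he
      have := hG _ h10
      rw [← h11] at this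
      exact this
    · intro q hq
      by_cases hqB : q ∈ B
      · left
        rw [h7 q hq, decide_eq_true hqB]
      · right
        exact hqB

end main

/-- the suffixes of the witnesses -/
def sufW (R : κ.El × β.El → Prop) : Set (Ty.El (.prod κ .word)) :=
  {z | ∃ u, R (z.1, u) ∧ ∃ w, enc β u = w ++ z.2}

/-- the complement of `R` -/
def notR (R : κ.El × β.El → Prop) : Set (Ty.El (.prod κ β)) := {z | ¬ R z}

open Classical in
/-- The negated form of Q1 for `i` implies the negated form of Q1 for `0` relative to oracles in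
`Σ_i^p`. -/
theorem transfer {i : ℕ} (hB : InSigma A i κ (fun q => q ∈ B))
    (h : ∀ (C : ℕ → ℕ → Prop) (ρ : ℕ → ℕ), OptProblem A i C ρ → Computed A i C ρ)
    {C' : ℕ → ℕ → Prop} {ρ' : ℕ → ℕ} (h' : OptProblem B 0 C' ρ') :
    ∃ (κ' : Ty) (B' : Set κ'.El), InSigma A i κ' (fun q => q ∈ B') ∧
      PF B' κ .bool (fun q => decide (q ∈ B)) ∧ Computed B' 0 C' ρ' := by
  obtain ⟨β, R, pw, hRi, hRs, hRB, hW⟩ := exists_witness i hB
  obtain ⟨rF, hrF, hrF'⟩ := h'.cost
  obtain ⟨L, ⟨g, hg, hgL⟩, hL⟩ := h'.feas
  set cF : List Bool × List Bool → Bool := fun z => !(g z) with hcF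
  have hcF' : PF B (.prod .word .word) .bool cF := hg.not'
  have hcF'' : ∀ x y : ℕ, C' x y ↔ cF (Nat.bits x, Nat.bits y) = true := by
    intro x y
    rw [hL, hcF, Bool.not_eq_true', ← Bool.not_eq_true, ← hgL, not_not]
  obtain ⟨V, Q, QF, hV, hQ, hQF, hVQ⟩ := exists_table (A := A) β (pf_FF hcF' hrF)
  obtain ⟨μ, O, S, p, hO, hS, hE⟩ := h _ _ (optProblem (c₀ := rF []) hV hQ hB hRi)
  -- the oracle
  set B₁ := join A B with hB₁
  set W : Set (Ty.El (.prod κ .word)) := sufW R with hWd
  set NR : Set (Ty.El (.prod κ β)) := notR R with hNR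
  set B₂ := join W NR with hB₂
  set B₃ := join B₂ O with hB₃
  set B' := join B₁ B₃ with hB'
  have hA : InSigma A i ι (fun q => q ∈ A) := by
    have h0 : InSigma A 0 ι (fun q => q ∈ A) := ⟨_, PF.query, fun q => by simp⟩
    clear_value B' B₃ B₂ B₁ W NR
    clear hE hS hO hV hQ hRi hW hB h
    induction i with
    | zero => exact h0
    | succ i ih => exact InSigma.succ i ih
  have hsig : InSigma A i _ (fun q => q ∈ B') := inSigma_join (inSigma_join hA hB)
    (inSigma_join (inSigma_join (hW.congr fun z => Iff.rfl) (hRi.congr fun z => Iff.rfl)) hO)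
  have p₁ : PF B' _ .bool (fun q => decide (q ∈ B₁)) := pf_join₁ B₁ B₃
  have p₃ : PF B' _ .bool (fun q => decide (q ∈ B₃)) := pf_join₂ B₁ B₃
  have pA : PF B' _ .bool (fun q => decide (q ∈ A)) := pf_mono p₁ (pf_join₁ A B)
  have pB : PF B' _ .bool (fun q => decide (q ∈ B)) := pf_mono p₁ (pf_join₂ A B)
  have pO : PF B' _ .bool (fun q => decide (q ∈ O)) := pf_mono p₃ (pf_join₂ B₂ O)
  have p₂ : PF B' _ .bool (fun q => decide (q ∈ B₂)) := pf_mono p₃ (pf_join₁ B₂ O)
  have pW : PF B' _ .bool (fun q => decide (q ∈ W)) := pf_mono p₂ (pf_join₁ W NR)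
  have pNR : PF B' _ .bool (fun q => decide (q ∈ NR)) := pf_mono p₂ (pf_join₂ W NR)
  have pR : PF B' (.prod κ β) .bool (fun z => decide (R z)) := pNR.not'.of_eq fun z => by
    rw [Bool.eq_iff_iff, Bool.not_eq_true', decide_eq_false_iff_not, decide_eq_true_eq]
    exact not_not
  obtain ⟨G, hG, hGR⟩ := search hRs pR (pW.of_eq fun z => rfl)
  have hG' : ∀ q, q ∈ B → R (q, G q) := fun q hq => hGR q ((hRB q).1 hq)
  have pQF : PF B' (.prod .word .word) (.list κ) QF := pf_mono pB hQF
  have plft := pf_lft pB pQF hG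
  obtain ⟨pl, hpl⟩ := plft.bound
  set pad : Polynomial ℕ := pl.comp (4 * Polynomial.X) + 1 with hpad
  have hlen : ∀ x z : ℕ, C' x z → (lft B QF G (Nat.bits x, Nat.bits z)).length + 1 ≤
      (inp pad (Nat.bits x)).length := by
    intro x z hz
    have h1 := hpl (Nat.bits x, Nat.bits z)
    rw [size_word, size_prod, size_word, size_word] at h1
    have h2 := length_bits_le (h'.le x z hz)
    have h3 := eval_mono pl (show 2 * (Nat.bits x).length + 2 * (Nat.bits z).length ≤
      4 * (Nat.bits x).length by omega)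
    have h4 := length_inp pad (Nat.bits x)
    have h5 : pad.eval (Nat.bits x).length = pl.eval (4 * (Nat.bits x).length) + 1 := by
      simp [hpad]
    simp only at h1
    omega
  have pV : PF B' (Ty.sol κ β) (.prod .bool .word) V := pf_mono pA hV
  have pQ : PF B' (Ty.sol κ β) (.list κ) Q := pf_mono pA hQ
  refine ⟨_, B', hsig, pB, ?_⟩
  -- feasibility
  set feas : List Bool × List Bool → Bool := fun z =>
    decide (feasP V Q B R (inp pad z.1, z.2)) with hfeas
  have pfeas : PF B' (.prod .word .word) .bool feas := by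
    have h1 : PF B' (.prod .word .word) .word (fun z => inp pad z.1) :=
      (pf_inp pad).comp (PF.fst _ _)
    have h2 : PF B' (.prod .word .word) .word (fun z => z.2) := PF.snd _ _
    have hs := pf_solOf (κ := κ) (β := β) h2
    have h3 := (pf_checkB pV).comp (h1.pair h2)
    have h4 : PF B' (.prod .word .word) .bool (fun z => (solOf κ β z.2).2.all
        fun e => decide (R e)) := PF.all (b := .prod κ β) (φ := fun w => decide (R w.1)) hs.snd'
      (pR.comp (PF.fst _ _))
    have h5 : PF B' (.prod κ (.prod .word .word)) .bool (fun w =>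
        inT w.1 (solOf κ β w.2.2).2 || !(decide (w.1 ∈ B))) :=
      (pf_inT (PF.fst _ _) (hs.comp (PF.snd _ _)).snd').or' (pB.comp (PF.fst _ _)).not'
    have h6 : PF B' (.prod .word .word) .bool (fun z => (Q (solOf κ β z.2)).all
        fun q => inT q (solOf κ β z.2).2 || !(decide (q ∈ B))) :=
      PF.all (b := κ) (φ := fun w : κ.El × (List Bool × List Bool) =>
        inT w.1 (solOf κ β w.2.2).2 || !(decide (w.1 ∈ B))) (pQ.comp hs) h5
    refine ((PF.isEmpty (b := .bool) h2).or' (h3.and' (h4.and' h6))).of_eq fun z => ?_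
    rw [hfeas, Bool.eq_iff_iff]
    simp only [Bool.or_eq_true, Bool.and_eq_true, decide_eq_true_eq, List.all_eq_true,
      Bool.not_eq_true', decide_eq_false_iff_not]
    exact Iff.rfl
  exact reduce pO (pf_mono pA hS) hE (pf_inp pad) pf_out pfeas plft
    (fun x => bits_inp pad _)
    (fun x y => by
      rw [hfeas, decide_eq_true_eq, feasN, bits_inp])
    (fun x y hy => out_spec' hVQ (fun q u hu => (hRB q).2 ⟨u, hu⟩) hcF'' hrF' h'.zero pad x y hy)
    (fun x z hz => by
      rw [lft]
      cases (Nat.bits z).isEmpty with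
      | true => rw [cond_true, val, Nat.zero_bits]
      | false => rw [cond_false, bits_append_true])
    (fun x z hz => lft_spec hVQ hG' hcF'' hrF' pad x z hz (hlen x z hz))
    (optProblem (c₀ := rF []) hV hQ hB hRi).le

end Pool.Agent.Lib.MP_2b5695_lc.Up
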