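import Pool.Agent.Lib.MP_2b5695_lc.Alg.Hash
import Pool.Agent.Lib.MP_2b5695_lc.Alg.Hier

/-!
Changing the oracle; equality of objects; joining oracles.
-/

namespace Pool.Agent.Lib.MP_2b5695_lc.Up

open Alg

variable {ι κ κ₁ κ₂ : Ty} {A : Set ι.El} {a b c d : Ty}

open Classical in
/-- functions computable with an oracle `B` are computable with an oracle that computes `B` -/
theorem pf_mono {B : Set κ.El} (hB : PF A κ .bool (fun q => decide (q ∈ B)))
    {F : a.El → b.El} (hF : PF B a b F) : PF A a b F := by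
  induction hF with
  | id a => exact PF.id a
  | comp _ _ hg hf => exact PF.comp hg hf
  | pair _ _ hf hg => exact PF.pair hf hg
  | fst a b => exact PF.fst a b
  | snd a b => exact PF.snd a b
  | tt a => exact PF.tt a
  | ff a => exact PF.ff a
  | nil a b => exact PF.nil a b
  | cons a => exact PF.cons a
  | cond a => exact PF.cond a
  | query => exact hB
  | listRec p _ _ h0 h1 hb hg hh => exact PF.listRec p hg hh h0 h1 hb

theorem enc_inj {a : Ty} {x y : a.El} (h : enc a x = enc a y) : x = y := by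
  rw [← dec_enc a x, h, dec_enc]

open Classical in
/-- equality of objects -/
theorem pf_eq {f g : a.El → b.El} (hf : PF A a b f) (hg : PF A a b g) :
    PF A a .bool (fun v => decide (f v = g v)) :=
  (PF.wordEq (PF.enc b hf) (PF.enc b hg)).of_eq fun v => by
    rw [Bool.eq_iff_iff]
    simp only [decide_eq_true_eq]
    exact ⟨fun h => enc_inj h, fun h => by rw [h]⟩

/-- the join of two oracles -/
def join (O₁ : Set κ₁.El) (O₂ : Set κ₂.El) : Set (Ty.El (.prod .bool (.prod κ₁ κ₂))) :=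
  {z | bif z.1 then z.2.1 ∈ O₁ else z.2.2 ∈ O₂}

theorem inSigma_join {i : ℕ} {O₁ : Set κ₁.El} {O₂ : Set κ₂.El}
    (h₁ : InSigma A i κ₁ (fun q => q ∈ O₁)) (h₂ : InSigma A i κ₂ (fun q => q ∈ O₂)) :
    InSigma A i (.prod .bool (.prod κ₁ κ₂)) (fun z => z ∈ join O₁ O₂) :=
  InSigma.ite i (h₁.comp (PF.snd _ _).fst') (h₂.comp (PF.snd _ _).snd') (PF.fst _ _)

open Classical in
theorem pf_join₁ (O₁ : Set κ₁.El) (O₂ : Set κ₂.El) :
    PF (join O₁ O₂) κ₁ .bool (fun q => decide (q ∈ O₁)) :=
  (PF.query.comp ((PF.tt κ₁).pair ((PF.id κ₁).pair (PF.const κ₂ κ₂.default)))).of_eq fun v => by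
    simp only [join, Set.mem_ofPred_eq, cond_true]
    congr

open Classical in
theorem pf_join₂ (O₁ : Set κ₁.El) (O₂ : Set κ₂.El) :
    PF (join O₁ O₂) κ₂ .bool (fun q => decide (q ∈ O₂)) :=
  (PF.query.comp ((PF.ff κ₂).pair ((PF.const κ₁ κ₁.default).pair (PF.id κ₂)))).of_eq fun v => by
    simp only [join, Set.mem_ofPred_eq, cond_false]
    congr

end Pool.Agent.Lib.MP_2b5695_lc.Up
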