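import Pool.Agent.Lib.MP_2b5695_lc.Up.Transfer
import Pool.Agent.Lib.MP_2b5695_lc.Owf.General

/-!
One-way functions at all levels.
-/

namespace Pool.Agent.Lib.MP_2b5695_lc.Up

open Alg Owf

variable {ι κ : Ty} {A : Set ι.El} {B : Set κ.El} {f : List Bool × List Bool → List Bool}

/-- If every optimization problem with a predicate in `Π_i^p` is computed by a type 1
counterexample computation with a `Σ_i^p` oracle, then functions computable in polynomial time with
a `Σ_i^p` oracle are inverted in randomized polynomial time with a `Σ_i^p` oracle. -/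
theorem inverted_level {i : ℕ}
    (h : ∀ (C : ℕ → ℕ → Prop) (ρ : ℕ → ℕ), OptProblem A i C ρ → Computed A i C ρ)
    (hB : InSigma A i κ (fun q => q ∈ B)) (hf : PF B (.prod .word .word) .word f) :
    ∃ (κ' : Ty) (B' : Set κ'.El), InSigma A i κ' (fun q => q ∈ B') ∧ Inverted B' f := by
  obtain ⟨p, hp⟩ := exists_length_bound hf
  obtain ⟨κ', B', h1, h2, h3⟩ := transfer hB h (optProblem_of hf p)
  exact ⟨κ', B', h1, inverted_of_computed (pf_mono h2 hf) hp h3⟩

end Pool.Agent.Lib.MP_2b5695_lc.Up
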