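import Pool.Agent.Lib.MP_2b5695_lc.Up.Base
import Pool.Agent.Lib.MP_2b5695_lc.Alg.Problem

/-!
Reductions between optimization problems, for counterexample computations.
-/

namespace Pool.Agent.Lib.MP_2b5695_lc.Up

open Alg

variable {ι κ μ : Ty} {A : Set ι.El} {B : Set κ.El}

open Classical in
/-- one step of a counterexample computation -/
theorem ensures_succ {O : Set μ.El} {Adv : ℕ → Option ℕ → Prop} {good : ℕ → Prop}
    {S : Ty.history.El → (Ty.move μ).El} {t : ℕ} {h : Ty.history.El} :
    Ensures O Adv good S (t + 1) h ↔
      ((S h).1.1 = false ∧ good (val (S h).2.2)) ∨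
      ((S h).1.1 = true ∧ (S h).1.2 = false ∧
        Ensures O Adv good S t ((decide ((S h).2.1 ∈ O), []) :: h)) ∨
      ((S h).1.1 = true ∧ (S h).1.2 = true ∧
        (Adv (val (S h).2.2) none → Ensures O Adv good S t ((true, []) :: h)) ∧
        ∀ z, Adv (val (S h).2.2) (some z) → Ensures O Adv good S t ((false, Nat.bits z) :: h)) := by
  rw [Ensures]
  generalize S h = m
  rcases m with ⟨⟨b₁, b₂⟩, q, w⟩
  cases b₁ <;> cases b₂ <;> simp

theorem ensures_mono {O : Set μ.El} {Adv : ℕ → Option ℕ → Prop} {good : ℕ → Prop}
    {S : Ty.history.El → (Ty.move μ).El} : ∀ {t t' : ℕ} {h : Ty.history.El}, t ≤ t' →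
    Ensures O Adv good S t h → Ensures O Adv good S t' h
  | 0, _, _, _, H => absurd H (by simp [Ensures])
  | t + 1, 0, _, ht, _ => absurd ht (by omega)
  | t + 1, t' + 1, h, ht, H => by
    have ht' : t ≤ t' := by omega
    rw [ensures_succ] at H ⊢
    rcases H with H | ⟨h1, h2, H⟩ | ⟨h1, h2, H, H'⟩
    · exact Or.inl H
    · exact Or.inr (Or.inl ⟨h1, h2, ensures_mono ht' H⟩)
    · exact Or.inr (Or.inr ⟨h1, h2, fun h3 => ensures_mono ht' (H h3),
        fun z hz => ensures_mono ht' (H' z hz)⟩)

/-- the translation of the answer `e`, given after the move `m`, on input `X` -/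
def redAns (feas : List Bool × List Bool → Bool) (lift : List Bool × List Bool → List Bool)
    (X : List Bool) (m : (Ty.move μ).El) (e : Bool × List Bool) : Bool × List Bool :=
  bif m.1.2 then (bif feas (X, norm m.2.2) then (bif e.1 then (true, []) else
    (false, lift (X, e.2))) else (false, [])) else (e.1, [])

/-- the translation of histories -/
def redHist (S : List Bool × Ty.history.El → (Ty.move μ).El) (inp : List Bool → List Bool)
    (feas : List Bool × List Bool → Bool) (lift : List Bool × List Bool → List Bool) :
    List (Bool × List Bool) → List Bool → List (Bool × List Bool)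
  | [], _ => []
  | e :: h, X => redAns feas lift X (S (inp X, redHist S inp feas lift h X)) e ::
      redHist S inp feas lift h X

/-- the translation of moves -/
def redMove (out : List Bool → List Bool) (feas : List Bool × List Bool → Bool)
    (X : List Bool) (m : (Ty.move μ).El) : (Ty.move μ).El :=
  ((m.1.1, m.1.2 && feas (X, norm m.2.2)), (m.2.1, out (norm m.2.2)))

theorem pf_redHist {S : List Bool × Ty.history.El → (Ty.move μ).El} {inp : List Bool → List Bool}
    {feas : List Bool × List Bool → Bool} {lift : List Bool × List Bool → List Bool}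
    (hS : PF B (.prod .word .history) (.move μ) S)
    (hinp : PF B .word .word inp) (hfeas : PF B (.prod .word .word) .bool feas)
    (hlift : PF B (.prod .word .word) .word lift) :
    PF B (.prod .history .word) .history (fun v => redHist S inp feas lift v.1 v.2) := by
  obtain ⟨p, hp⟩ := hlift.bound
  -- the step function: argument `(e, l, s, r)`
  have hs : PF B (.prod (.prod .bool .word) (.prod .history (.prod .word .history))) .word
      (fun v => v.2.2.1) := (PF.snd _ _).snd'.fst'
  have hr : PF B (.prod (.prod .bool .word) (.prod .history (.prod .word .history))) .history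
      (fun v => v.2.2.2) := (PF.snd _ _).snd'.snd'
  have hm : PF B (.prod (.prod .bool .word) (.prod .history (.prod .word .history))) (.move μ)
      (fun v => S (inp v.2.2.1, v.2.2.2)) := hS.comp ((hinp.comp hs).pair hr)
  have he : PF B (.prod (.prod .bool .word) (.prod .history (.prod .word .history)))
      (.prod .bool .word) (fun v => v.1) := PF.fst _ _
  have ha : PF B (.prod (.prod .bool .word) (.prod .history (.prod .word .history)))
      (.prod .bool .word)
      (fun v => redAns feas lift v.2.2.1 (S (inp v.2.2.1, v.2.2.2)) v.1) := by
    refine PF.cond' hm.fst'.snd' (PF.cond' (hfeas.comp (hs.pair hm.snd'.snd'.norm))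
      (PF.cond' he.fst' (PF.const (.prod .bool .word) (true, []))
        ((PF.ff _).pair (hlift.comp (hs.pair he.snd'))))
      (PF.const (.prod .bool .word) (false, []))) (he.fst'.pair (PF.nil _ _))
  refine PF.recAdd (f := fun v => redHist S inp feas lift v.1 v.2) (PF.nil .word (.prod .bool .word))
    (ha.cons' hr) (fun s => rfl) (fun e l s => rfl) (p + 2) fun e l s r => ?_
  have h1 : Ty.size (.prod .bool .word) (redAns feas lift s (S (inp s, r)) e) ≤
      1 + p.eval (Ty.size .word s + Ty.size .word e.2) := by
    have h2 := hp (s, e.2)
    rw [size_prod] at h2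
    unfold redAns
    cases (S (inp s, r)).1.2
    · simp [size_word]
    · cases feas (s, norm (S (inp s, r)).2.2)
      · simp [size_word]
      · cases e.1
        · simpa using h2
        · simp [size_word]
  have h3 : p.eval (Ty.size .word s + Ty.size .word e.2) ≤
      p.eval (Ty.size (.prod .bool .word) e + Ty.size (.list (.prod .bool .word)) l +
        Ty.size .word s) := eval_mono p (by rw [size_prod]; omega)
  have h4 := size_cons (a := .prod .bool .word) (redAns feas lift s (S (inp s, r)) e) r
  refine h4.le.trans ?_
  rw [Polynomial.eval_add, Polynomial.eval_ofNat]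
  have h5 : Ty.size (.list (.prod .bool .word)) r = Ty.size .history r := rfl
  omega

open Classical in
/-- A counterexample computation (with oracle `O` and next-move function `S`) for the problem
`(C, ρ)` gives one for the problem `(C', ρ')`, relative to an oracle `B` that computes everything:
the input `x` is translated to `inp x`, the solution `y` of `inp x` to `out y`, and the solution
`z` of `x` to `lift (x, z)`. -/
theorem reduce {C C' : ℕ → ℕ → Prop} {ρ ρ' : ℕ → ℕ} {O : Set μ.El}
    {S : List Bool × Ty.history.El → (Ty.move μ).El} {p : Polynomial ℕ}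
    (hO : PF B μ .bool (fun q => decide (q ∈ O)))
    (hS : PF B (.prod .word .history) (.move μ) S)
    (hE : ∀ x : ℕ, Ensures O (Answers C ρ x) (Optimal C ρ x) (fun h => S (Nat.bits x, h))
      (p.eval (Nat.bits x).length) [])
    {inp out : List Bool → List Bool} {feas : List Bool × List Bool → Bool}
    {lift : List Bool × List Bool → List Bool}
    (hinp : PF B .word .word inp) (hout : PF B .word .word out)
    (hfeas : PF B (.prod .word .word) .bool feas) (hlift : PF B (.prod .word .word) .word lift)
    (inp_bits : ∀ x : ℕ, Nat.bits (val (inp (Nat.bits x))) = inp (Nat.bits x))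
    (feas_iff : ∀ x y : ℕ, feas (Nat.bits x, Nat.bits y) = true ↔ C (val (inp (Nat.bits x))) y)
    (out_spec : ∀ x y : ℕ, C (val (inp (Nat.bits x))) y →
      C' x (val (out (Nat.bits y))) ∧ ρ' (val (out (Nat.bits y))) = ρ y)
    (lift_bits : ∀ x z : ℕ, C' x z →
      Nat.bits (val (lift (Nat.bits x, Nat.bits z))) = lift (Nat.bits x, Nat.bits z))
    (lift_spec : ∀ x z : ℕ, C' x z →
      C (val (inp (Nat.bits x))) (val (lift (Nat.bits x, Nat.bits z))) ∧
      ρ (val (lift (Nat.bits x, Nat.bits z))) = ρ' z)
    (hle : ∀ x y : ℕ, C x y → y ≤ x) : Computed B 0 C' ρ' := by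
  obtain ⟨r, hr⟩ := hinp.bound
  have hH : PF B (.prod .word .history) .history
      (fun v => redHist S inp feas lift v.2 v.1) :=
    (pf_redHist hS hinp hfeas hlift).comp ((PF.snd _ _).pair (PF.fst _ _))
  have hm : PF B (.prod .word .history) (.move μ)
      (fun v => S (inp v.1, redHist S inp feas lift v.2 v.1)) :=
    hS.comp ((hinp.comp (PF.fst _ _)).pair hH)
  refine ⟨μ, O, fun v => redMove out feas v.1 (S (inp v.1, redHist S inp feas lift v.2 v.1)),
    p.comp (r.comp (2 * Polynomial.X)), ⟨_, hO, fun v => by simp⟩,
    (hm.fst'.fst'.pair (hm.fst'.snd'.and' (hfeas.comp ((PF.fst _ _).pair hm.snd'.snd'.norm)))).pair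
      (hm.snd'.fst'.pair (hout.comp hm.snd'.snd'.norm)), fun x => ?_⟩
  -- the main claim
  obtain ⟨x₀, hx₀⟩ : ∃ x₀, x₀ = val (inp (Nat.bits x)) := ⟨_, rfl⟩
  have hbits : Nat.bits x₀ = inp (Nat.bits x) := by rw [hx₀, inp_bits]
  have key : ∀ (t : ℕ) (h : Ty.history.El),
      Ensures O (Answers C ρ x₀) (Optimal C ρ x₀) (fun h => S (Nat.bits x₀, h)) t
        (redHist S inp feas lift h (Nat.bits x)) →
      Ensures O (Answers C' ρ' x) (Optimal C' ρ' x) (fun h => redMove out feas (Nat.bits x)
        (S (Nat.bits x₀, redHist S inp feas lift h (Nat.bits x)))) t h := by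
    intro t
    induction t with
    | zero => intro h H; exact absurd H (by simp [Ensures])
    | succ t ih =>
      intro h H
      rw [ensures_succ] at H ⊢
      -- the translated history after one more answer
      have hcons : ∀ e, redHist S inp feas lift (e :: h) (Nat.bits x) =
          redAns feas lift (Nat.bits x) (S (Nat.bits x₀, redHist S inp feas lift h (Nat.bits x))) e ::
            redHist S inp feas lift h (Nat.bits x) := by
        intro e
        rw [hbits]
        rfl
      generalize hm' : S (Nat.bits x₀, redHist S inp feas lift h (Nat.bits x)) = m at H hcons ⊢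
      rcases m with ⟨⟨b₁, b₂⟩, q, w⟩
      have hnorm : norm w = Nat.bits (val w) := norm_eq w
      generalize hy : val w = y at H hnorm
      have hopt : ∀ y, C x₀ y → (Optimal C' ρ' x (val (out (Nat.bits y))) ↔ Optimal C ρ x₀ y) := by
        intro y hy
        rw [hx₀] at hy
        obtain ⟨h1, h2⟩ := out_spec x y hy
        constructor
        · rintro ⟨-, h3⟩
          rw [hx₀]
          refine ⟨hy, fun z hz => ?_⟩
          obtain ⟨h4, h5⟩ := out_spec x z hz
          rw [← h5, ← h2]
          exact h3 _ h4
        · rintro ⟨-, h3⟩
          refine ⟨h1, fun z hz => ?_⟩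
          obtain ⟨h4, h5⟩ := lift_spec x z hz
          rw [hx₀] at h3
          rw [h2, ← h5]
          exact h3 _ h4
      cases b₁
      · -- stop
        simp only [true_and, Bool.false_eq_true, false_and, or_false] at H
        refine Or.inl ⟨rfl, ?_⟩
        simp only [redMove, hnorm]
        exact (hopt y H.1).2 H
      · cases b₂
        · -- query
          simp only [Bool.true_eq_false, false_and, true_and, Bool.false_eq_true, or_false,
            false_or] at H
          refine Or.inr (Or.inl ⟨rfl, rfl, ih _ ?_⟩)
          rw [hcons]
          exact H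
        · simp only [Bool.true_eq_false, false_and, true_and, false_or] at H
          obtain ⟨H1, H2⟩ := H
          cases hf : feas (Nat.bits x, norm w)
          · -- infeasible
            refine Or.inr (Or.inl ⟨rfl, ?_, ih _ ?_⟩)
            · simp only [redMove, hf, Bool.and_false]
            · rw [hcons]
              have h1 : redAns feas lift (Nat.bits x) (((true, true), q, w) : (Ty.move μ).El)
                  (decide ((redMove out feas (Nat.bits x)
                    (((true, true), q, w) : (Ty.move μ).El)).2.1 ∈ O), []) = (false, []) := by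
                simp only [redAns, hf, cond_true, cond_false]
              rw [h1]
              have h2 := H2 0 ⟨Nat.zero_le _, fun h3 => ?_⟩
              · simpa using h2
              · have h4 := (feas_iff x y).2 (by rw [← hx₀]; exact h3.1)
                rw [← hnorm, hf] at h4
                exact Bool.false_ne_true h4
          · -- feasible
            have hC : C x₀ y := by
              rw [hx₀, ← feas_iff, ← hnorm, hf]
            refine Or.inr (Or.inr ⟨rfl, ?_, fun h1 => ih _ ?_, fun z hz => ih _ ?_⟩)
            · simp only [redMove, hf, Bool.and_true]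
            · simp only [redMove, hnorm] at h1
              rw [hcons]
              have h2 : redAns feas lift (Nat.bits x) (((true, true), q, w) : (Ty.move μ).El)
                  (true, []) = (true, []) := by
                simp only [redAns, hf, cond_true]
              rw [h2]
              exact H1 ((hopt y hC).1 h1)
            · simp only [redMove, hnorm] at hz
              rw [hcons]
              have h2 : redAns feas lift (Nat.bits x) (((true, true), q, w) : (Ty.move μ).El)
                  (false, Nat.bits z) = (false, lift (Nat.bits x, Nat.bits z)) := by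
                simp only [redAns, hf, cond_true, cond_false]
              rw [h2]
              obtain ⟨h3, h4⟩ := hz
              rw [hx₀] at hC
              obtain ⟨h5, h6⟩ := out_spec x y hC
              rw [RelB, h6] at h4
              have h7 : ρ y < ρ' z ∧ C' x z := by
                by_contra h8
                exact h4 ⟨h5, fun h9 h10 => h8 ⟨h9, h10⟩⟩
              obtain ⟨h8, h9⟩ := lift_spec x z h7.2
              rw [← lift_bits x z h7.2]
              refine H2 _ ⟨?_, fun h10 => ?_⟩
              · rw [hx₀]
                exact hle _ _ h8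
              · rw [hx₀] at h10
                exact h10.2 (by rw [h9]; exact h7.1) h8
  have h1 := key _ [] (hE x₀)
  rw [hbits] at h1
  refine ensures_mono ?_ h1
  rw [Polynomial.eval_comp, Polynomial.eval_comp]
  refine eval_mono p ?_
  have h2 := hr (Nat.bits x)
  rw [size_word, size_word] at h2
  simp only [Polynomial.eval_mul, Polynomial.eval_ofNat, Polynomial.eval_X]
  omega

end Pool.Agent.Lib.MP_2b5695_lc.Up
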