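import Pool.Agent.Lib.MP_2b5695_lc.Up.Base

/-!
Finding witnesses with an oracle for their suffixes.
-/

namespace Pool.Agent.Lib.MP_2b5695_lc.Up

open Alg

variable {ι κ : Ty} {A : Set ι.El} {a b c d : Ty}

open Classical in
/-- one step of the search -/
private noncomputable def srchStep (b : Ty) (R : a.El × b.El → Prop) (v : a.El) (w : List Bool) :
    List Bool :=
  bif decide (R (v, dec b w)) then w else
    bif decide (∃ u, R (v, u) ∧ ∃ w', enc b u = w' ++ (true :: w)) then true :: w else false :: w

private noncomputable def srchIter (b : Ty) (R : a.El × b.El → Prop) (l : List Bool) (v : a.El) :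
    List Bool :=
  l.foldr (fun _ w => srchStep b R v w) []

open Classical in
private theorem srch_inv {R : a.El × b.El → Prop} {v : a.El} (hv : ∃ u, R (v, u)) :
    ∀ l : List Bool, R (v, dec b (srchIter b R l v)) ∨
      ((∃ u, R (v, u) ∧ ∃ w', enc b u = w' ++ srchIter b R l v) ∧
        (srchIter b R l v).length = l.length) := by
  intro l
  induction l with
  | nil =>
    right
    refine ⟨?_, rfl⟩
    obtain ⟨u, hu⟩ := hv
    exact ⟨u, hu, enc b u, by simp [srchIter]⟩
  | cons e l ih =>
    have h0 : srchIter b R (e :: l) v = srchStep b R v (srchIter b R l v) := rfl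
    rw [h0]
    generalize srchIter b R l v = w at ih
    by_cases hR : R (v, dec b w)
    · left
      rw [srchStep, decide_eq_true hR, cond_true]
      exact hR
    · rcases ih with h | ⟨⟨u, hu, w', hw'⟩, hlen⟩
      · exact absurd h hR
      right
      have hne : w' ≠ [] := by
        rintro rfl
        rw [List.nil_append] at hw'
        apply hR
        rw [← hw', dec_enc]
        exact hu
      rw [srchStep, decide_eq_false hR, cond_false]
      by_cases hT : ∃ u, R (v, u) ∧ ∃ w', enc b u = w' ++ (true :: w)
      · rw [decide_eq_true hT, cond_true]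
        exact ⟨hT, by rw [List.length_cons, hlen, List.length_cons]⟩
      · rw [decide_eq_false hT, cond_false]
        refine ⟨⟨u, hu, w'.dropLast, ?_⟩, by rw [List.length_cons, hlen, List.length_cons]⟩
        have h1 := List.dropLast_append_getLast hne
        have h2 : enc b u = w'.dropLast ++ (w'.getLast hne :: w) := by
          rw [hw']
          conv_lhs => rw [← h1]
          rw [List.append_assoc]
          rfl
        cases h3 : w'.getLast hne with
        | false => rw [h3] at h2; exact h2
        | true =>
          rw [h3] at h2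
          exact absurd ⟨u, hu, _, h2⟩ hT

open Classical in
/-- search reduces to decision -/
theorem search {R : a.El × b.El → Prop} {p : Polynomial ℕ}
    (hp : ∀ v u, R (v, u) → b.size u ≤ p.eval (a.size v))
    (hR : PF A (.prod a b) .bool (fun z => decide (R z)))
    (hW : PF A (.prod a .word) .bool
      (fun z => decide (∃ u, R (z.1, u) ∧ ∃ w, enc b u = w ++ z.2))) :
    ∃ G : a.El → b.El, PF A a b G ∧ ∀ v, (∃ u, R (v, u)) → R (v, G v) := by
  obtain ⟨r, hr⟩ := (PF.enc (A := A) b (PF.id b)).bound
  have hN : PF A a .word (fun v => List.replicate ((r.comp p + 1).eval (a.size v)) true) :=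
    PF.polyList (PF.sizeList a) (r.comp p + 1)
  have hs : PF A (.prod .bool (.prod .word (.prod a .word))) a (fun v => v.2.2.1) :=
    (PF.snd _ _).snd'.fst'
  have hw : PF A (.prod .bool (.prod .word (.prod a .word))) .word (fun v => v.2.2.2) :=
    (PF.snd _ _).snd'.snd'
  have hh : PF A (.prod .bool (.prod .word (.prod a .word))) .word
      (fun v => srchStep b R v.2.2.1 v.2.2.2) :=
    (hR.comp (hs.pair (PF.dec b hw))).cond' hw
      ((hW.comp (hs.pair ((PF.tt _).cons' hw))).cond' ((PF.tt _).cons' hw) ((PF.ff _).cons' hw))
  have hI : PF A a .word (fun v => srchIter b R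
      (List.replicate ((r.comp p + 1).eval (a.size v)) true) v) := by
    refine PF.rec' (f := fun v => srchIter b R v.1 v.2) hN (PF.nil _ _) hh (fun s => rfl)
      (fun e l s => rfl) 2 fun e l s w => ?_
    simp only [size_word, Polynomial.eval_ofNat]
    rw [srchStep]
    cases decide (R (s, dec b w))
    · cases decide (∃ u, R (s, u) ∧ ∃ w', enc b u = w' ++ (true :: w))
      · simp only [cond_false, List.length_cons]; omega
      · simp only [cond_false, cond_true, List.length_cons]; omega
    · simp only [cond_true]; omega
  refine ⟨_, PF.dec b hI, fun v hv => ?_⟩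
  rcases srch_inv hv (List.replicate ((r.comp p + 1).eval (a.size v)) true) with h | ⟨h, hlen⟩
  · exact h
  · exfalso
    obtain ⟨u, hu, w', hw'⟩ := h
    have h1 := hr u
    have h2 := eval_mono r (hp v u hu)
    have h3 : (enc b u).length = w'.length + (srchIter b R
        (List.replicate ((r.comp p + 1).eval (a.size v)) true) v).length := by
      rw [hw', List.length_append]
    rw [hlen, List.length_replicate, Polynomial.eval_add, Polynomial.eval_comp,
      Polynomial.eval_one] at h3
    rw [size_word] at h1
    omega

/-- testing for a suffix -/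
private theorem suffix_iff (w u : List Bool) :
    w = u.drop (u.drop w.length).length ↔ ∃ w', u = w' ++ w := by
  constructor
  · intro h
    refine ⟨u.take (u.drop w.length).length, ?_⟩
    conv_lhs => rw [← List.take_append_drop (u.drop w.length).length u]
    rw [← h]
  · rintro ⟨w', rfl⟩
    rw [List.length_drop, List.length_append]
    have : w'.length + w.length - w.length = w'.length := by omega
    rw [this, List.drop_left]

/-- witnesses for a property in `Σ_i`, with the suffixes of the witnesses decidable in `Σ_i` -/
theorem exists_witness (i : ℕ) {a : Ty} {L : a.El → Prop} (hL : InSigma A i a L) :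
    ∃ (b : Ty) (R : a.El × b.El → Prop) (p : Polynomial ℕ), InPi A i (.prod a b) R ∧
      (∀ v u, R (v, u) → b.size u ≤ p.eval (a.size v)) ∧ (∀ v, L v ↔ ∃ u, R (v, u)) ∧
      InSigma A i (.prod a .word) (fun z => ∃ u, R (z.1, u) ∧ ∃ w, enc b u = w ++ z.2) := by
  classical
  cases i with
  | zero =>
    obtain ⟨f, hf, hL⟩ := hL
    refine ⟨.bool, fun v => L v.1, 1, ⟨fun v => !(f v.1), (hf.comp (PF.fst _ _)).not',
      fun v => by simp [hL]⟩, fun v u _ => by simp, fun v => by simp,
      ⟨fun z => f z.1 && z.2.tail.isEmpty, (hf.comp (PF.fst _ _)).and' (PF.snd _ _).tail.isEmpty,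
        fun z => ?_⟩⟩
    rcases z with ⟨v, w⟩
    simp only [Bool.and_eq_true, hL]
    constructor
    · rintro ⟨u, h1, w', h2⟩
      refine ⟨h1, ?_⟩
      have h3 : (enc .bool u).length = 1 := rfl
      rw [h2, List.length_append] at h3
      rcases w with _ | ⟨x, _ | ⟨y, t⟩⟩
      · rfl
      · rfl
      · simp only [List.length_cons] at h3
        omega
    · rintro ⟨h1, h2⟩
      rcases w with _ | ⟨x, _ | ⟨y, t⟩⟩
      · exact ⟨true, h1, [true], rfl⟩
      · exact ⟨x, h1, [], rfl⟩
      · simp at h2
  | succ i =>
    obtain ⟨b, L', p, hL', hL⟩ := hL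
    have h0 : InPi A i (.prod a b) (fun v => ¬ L' v) := hL'.congr fun v => by simp
    have hR : InPi A i (.prod a b)
        (fun z => decide (b.size z.2 ≤ p.eval (a.size z.1)) = true ∧ ¬ L' z) :=
      h0.and (PF.sizeLE (PF.snd a b) (PF.fst a b) p)
    refine ⟨b, _, p, hR.succ, fun v u h => by simpa using h.1, fun v => ?_, ?_⟩
    · rw [hL]; simp
    · have h1 : PF A (.prod (.prod a .word) b) (.prod a b) (fun z => (z.1.1, z.2)) :=
        (PF.fst _ _).fst'.pair (PF.snd _ _)
      have h2 : PF A (.prod (.prod a .word) b) .word (fun z => enc b z.2) :=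
        PF.enc b (PF.snd _ _)
      have h3 : PF A (.prod (.prod a .word) b) .word (fun z => z.1.2) := (PF.fst _ _).snd'
      have h4 : PF A (.prod (.prod a .word) b) .bool
          (fun z => decide (z.1.2 = (enc b z.2).drop ((enc b z.2).drop z.1.2.length).length)) :=
        (pf_eq h3 (PF.drop (PF.drop h3 h2) h2)).of_eq fun v => by congr
      have h5 := ((hR.comp h1).and h4).ex p
      refine h5.congr fun z => ?_
      rcases z with ⟨v, w⟩
      simp only [decide_eq_true_eq, suffix_iff]
      constructor
      · rintro ⟨u, -, h6, h7, h8⟩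
        exact ⟨u, ⟨h7, h8⟩, h6⟩
      · rintro ⟨u, ⟨h7, h8⟩, h6⟩
        refine ⟨u, h7.trans (eval_mono p ?_), h6, h7, h8⟩
        rw [size_prod]
        exact Nat.le_add_right _ _

end Pool.Agent.Lib.MP_2b5695_lc.Up
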