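import Pool.Agent.Lib.MP_2b5695_lc.Up.Table
import Pool.Agent.Lib.MP_2b5695_lc.Up.Search
import Pool.Agent.Lib.MP_2b5695_lc.Up.Reduce

/-!
The optimization problem with tables of oracle answers and witnesses.
-/

namespace Pool.Agent.Lib.MP_2b5695_lc.Up

open Alg

variable {ι κ β : Ty} {A : Set ι.El} {B : Set κ.El}

/-- the solutions: input, solution of the given problem, and table -/
@[reducible] def Ty.sol (κ β : Ty) : Ty := .prod (.prod .word .word) (.list (.prod κ β))

/-- the solution given by a word -/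
def solOf (κ β : Ty) (Y : List Bool) : (Ty.sol κ β).El := dec (Ty.sol κ β) Y.dropLast

/-- the input given by a word -/
def inpOf (X : List Bool) : List Bool := (dec (.prod .word .word) X.dropLast).1

theorem pf_solOf {a : Ty} {Y : a.El → List Bool} (hY : PF A a .word Y) :
    PF A a (Ty.sol κ β) (fun v => solOf κ β (Y v)) := PF.dec _ hY.dropLast

theorem pf_inpOf {a : Ty} {X : a.El → List Bool} (hX : PF A a .word X) :
    PF A a .word (fun v => inpOf (X v)) := (PF.dec (.prod .word .word) hX.dropLast).fst'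

section
variable (V : (Ty.sol κ β).El → Bool × List Bool) (Q : (Ty.sol κ β).El → List κ.El)
  (B : Set κ.El) (R : κ.El × β.El → Prop) (c₀ : List Bool)

/-- the part of feasibility that is checked in polynomial time -/
def checkB (Z : List Bool × List Bool) : Bool :=
  decide (Z.2.length + 1 ≤ Z.1.length) &&
    (decide ((solOf κ β Z.2).1.1 = inpOf Z.1) && (V (solOf κ β Z.2)).1)

/-- the feasible solutions -/
def feasP (Z : List Bool × List Bool) : Prop :=
  Z.2.isEmpty = true ∨ (checkB V Z = true ∧ ((∀ e ∈ (solOf κ β Z.2).2, R e) ∧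
    ∀ q ∈ Q (solOf κ β Z.2), inT q (solOf κ β Z.2).2 = true ∨ q ∉ B))

/-- the feasible solutions -/
def feasN (x y : ℕ) : Prop := feasP V Q B R (Nat.bits x, Nat.bits y)

/-- the cost, as a word -/
def costW (Y : List Bool) : List Bool := bif Y.isEmpty then c₀ else (V (solOf κ β Y)).2

/-- the cost -/
def costN (y : ℕ) : ℕ := val (costW V c₀ (Nat.bits y))

end

variable {V : (Ty.sol κ β).El → Bool × List Bool} {Q : (Ty.sol κ β).El → List κ.El}
  {R : κ.El × β.El → Prop} {c₀ : List Bool}

theorem pf_checkB (hV : PF A (Ty.sol κ β) (.prod .bool .word) V) :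
    PF A (.prod .word .word) .bool (checkB V) := by
  have h1 : PF A (.prod .word .word) .word (fun Z => Z.1) := PF.fst _ _
  have h2 : PF A (.prod .word .word) .word (fun Z => Z.2) := PF.snd _ _
  have h3 : PF A (.prod .word .word) .word (fun Z => true :: Z.2) := (PF.tt _).cons' h2
  have hs := pf_solOf (κ := κ) (β := β) h2
  have h4 : PF A (.prod .word .word) .bool (fun Z => decide ((true :: Z.2).length ≤ Z.1.length)) :=
    PF.lengthLE (b := .bool) (c := .bool) h3 h1
  exact (h4.and' ((PF.wordEq hs.fst'.fst' (pf_inpOf h1)).and' (hV.comp hs).fst')).of_eq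
    fun Z => by rw [List.length_cons]; rfl

theorem inPi_feasP {i : ℕ} (hV : PF A (Ty.sol κ β) (.prod .bool .word) V)
    (hQ : PF A (Ty.sol κ β) (.list κ) Q) (hB : InSigma A i κ (fun q => q ∈ B))
    (hR : InPi A i (.prod κ β) R) : InPi A i (.prod .word .word) (feasP V Q B R) := by
  have h2 : PF A (.prod .word .word) .word (fun Z => Z.2) := PF.snd _ _
  have hs := pf_solOf (κ := κ) (β := β) h2
  have h3 : InPi A i (.prod .word .word) (fun Z => ∀ e ∈ (solOf κ β Z.2).2, R e) :=
    InPi.allMem hR hs.snd'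
  have hB' : InPi A i κ (fun q => q ∉ B) := hB.congr fun q => by simp
  have h4 : InPi A i (.prod κ (.list (.prod κ β))) (fun z => inT z.1 z.2 = true ∨ z.1 ∉ B) :=
    InPi.or (hB'.comp (PF.fst _ _)) (pf_inT (PF.fst _ _) (PF.snd _ _))
  have h5 : PF A (.prod .word .word) (.list (.prod κ (.list (.prod κ β)))) (fun Z =>
      (Q (solOf κ β Z.2)).map fun q => (q, (solOf κ β Z.2).2)) :=
    PF.map (b := κ) (c := .prod κ (.list (.prod κ β))) (φ := fun z : κ.El × (List Bool × List Bool) => (z.1, (solOf κ β z.2.2).2))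
      (hQ.comp hs) ((PF.fst _ _).pair (hs.comp (PF.snd _ _)).snd')
  have h6 : InPi A i (.prod .word .word) (fun Z => ∀ q ∈ Q (solOf κ β Z.2),
      inT q (solOf κ β Z.2).2 = true ∨ q ∉ B) :=
    (InPi.allMem h4 h5).congr fun Z => by
      simp only [List.mem_map, forall_exists_index, and_imp, forall_apply_eq_imp_iff₂]
  exact InPi.or (InPi.and (InPi.and₂ h3 h6) (pf_checkB hV)) h2.isEmpty

theorem optProblem {i : ℕ} (hV : PF A (Ty.sol κ β) (.prod .bool .word) V)
    (hQ : PF A (Ty.sol κ β) (.list κ) Q) (hB : InSigma A i κ (fun q => q ∈ B))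
    (hR : InPi A i (.prod κ β) R) : OptProblem A i (feasN V Q B R) (costN V c₀) where
  zero x := Or.inl (by simp)
  le x y h := by
    rcases h with h | h
    · rw [List.isEmpty_iff] at h
      rw [(bits_eq_nil.1 h : y = 0)]
      exact Nat.zero_le _
    · have h1 := h.1
      simp only [checkB, Bool.and_eq_true, decide_eq_true_eq] at h1
      exact le_of_length_lt (by omega)
  cost := ⟨costW V c₀, by
    have hs := pf_solOf (A := A) (κ := κ) (β := β) (PF.id .word)
    exact (PF.id Ty.word).isEmpty.cond' (PF.const .word c₀) (hV.comp hs).snd', fun y => rfl⟩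
  feas := ⟨feasP V Q B R, inPi_feasP hV hQ hB hR, fun x y => Iff.rfl⟩

end Pool.Agent.Lib.MP_2b5695_lc.Up
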