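import Pool.Agent.Lib.MP_2b5695_lc.Up.Base
import Pool.Agent.Lib.MP_2b5695_lc.Alg.Problem

/-!
Functions computed with an oracle, computed without it from a table of positive answers.
-/

namespace Pool.Agent.Lib.MP_2b5695_lc.Up

open Alg

variable {ι κ β : Ty} {A : Set ι.El} {a b c d : Ty}

open Classical in
/-- `q` is the first component of an element of the table `T` -/
noncomputable def inT (q : κ.El) (T : List (κ.El × β.El)) : Bool := T.any fun e => decide (e.1 = q)

theorem inT_iff {q : κ.El} {T : List (κ.El × β.El)} : inT q T = true ↔ ∃ e ∈ T, e.1 = q := by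
  rw [inT, List.any_eq_true]
  simp

theorem pf_inT {q : a.El → κ.El} {T : a.El → List (κ.El × β.El)} (hq : PF A a κ q)
    (hT : PF A a (.list (.prod κ β)) T) : PF A a .bool (fun v => inT (q v) (T v)) := by
  classical
  exact PF.any (b := .prod κ β) (φ := fun z => decide (z.1.1 = q z.2)) hT
    (pf_eq (PF.fst _ _).fst' (hq.comp (PF.snd _ _)))

/-- the clipped step of the recursion -/
private noncomputable def clip (p : Polynomial ℕ)
    (Vh : (b.El × List b.El × a.El × c.El) × List (κ.El × β.El) → c.El)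
    (z : b.El × List b.El × (a.El × List (κ.El × β.El)) × c.El) : c.El :=
  bif decide (c.size (Vh ((z.1, z.2.1, z.2.2.1.1, z.2.2.2), z.2.2.1.2)) ≤
      p.eval (Ty.size (.prod (.list b) a) (z.1 :: z.2.1, z.2.2.1.1))) then
    Vh ((z.1, z.2.1, z.2.2.1.1, z.2.2.2), z.2.2.1.2) else c.default

/-- the recursion without oracle -/
private noncomputable def recT (p : Polynomial ℕ) (Vg : a.El × List (κ.El × β.El) → c.El)
    (Vh : (b.El × List b.El × a.El × c.El) × List (κ.El × β.El) → c.El) :
    List b.El → a.El × List (κ.El × β.El) → c.El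
  | [], s => Vg s
  | e :: l, s => clip p Vh (e, l, s, recT p Vg Vh l s)

private theorem pf_clip (p : Polynomial ℕ)
    {Vh : (b.El × List b.El × a.El × c.El) × List (κ.El × β.El) → c.El}
    (hVh : PF A (.prod (.prod b (.prod (.list b) (.prod a c))) (.list (.prod κ β))) c Vh) :
    PF A (.prod b (.prod (.list b) (.prod (.prod a (.list (.prod κ β))) c))) c (clip p Vh) := by
  have h1 : PF A (.prod b (.prod (.list b) (.prod (.prod a (.list (.prod κ β))) c))) c
      (fun z => Vh ((z.1, z.2.1, z.2.2.1.1, z.2.2.2), z.2.2.1.2)) :=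
    PF.comp hVh (((PF.fst _ _).pair ((PF.snd _ _).fst'.pair
      ((PF.snd _ _).snd'.fst'.fst'.pair (PF.snd _ _).snd'.snd'))).pair
      (PF.snd _ _).snd'.fst'.snd')
  have h2 : PF A (.prod b (.prod (.list b) (.prod (.prod a (.list (.prod κ β))) c)))
      (.prod (.list b) a) (fun z => (z.1 :: z.2.1, z.2.2.1.1)) :=
    ((PF.fst _ _).cons' (PF.snd _ _).fst').pair (PF.snd _ _).snd'.fst'.fst'
  exact (PF.sizeLE h1 h2 p).cond' h1 (PF.const _ _)

private theorem pf_recT (p : Polynomial ℕ) {Vg : a.El × List (κ.El × β.El) → c.El}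
    {Vh : (b.El × List b.El × a.El × c.El) × List (κ.El × β.El) → c.El}
    (hVg : PF A (.prod a (.list (.prod κ β))) c Vg)
    (hVh : PF A (.prod (.prod b (.prod (.list b) (.prod a c))) (.list (.prod κ β))) c Vh) :
    PF A (.prod (.list b) (.prod a (.list (.prod κ β)))) c (fun v => recT p Vg Vh v.1 v.2) := by
  obtain ⟨pg, hpg⟩ := hVg.bound
  refine PF.listRec (pg + p + Polynomial.C (c.size c.default)) hVg (pf_clip p hVh)
    (fun s => rfl) (fun e l s => rfl) ?_
  rintro ⟨l, s⟩
  simp only [Polynomial.eval_add, Polynomial.eval_C]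
  cases l with
  | nil =>
    have h1 := hpg s
    have h2 : pg.eval (Ty.size (.prod a (.list (.prod κ β))) s) ≤
        pg.eval (Ty.size (.prod (.list b) (.prod a (.list (.prod κ β)))) ([], s)) :=
      eval_mono pg (by rw [size_prod (a := .list b)]; exact Nat.le_add_left _ _)
    change c.size (Vg s) ≤ _
    omega
  | cons e l =>
    change c.size (clip p Vh (e, l, s, recT p Vg Vh l s)) ≤ _
    unfold clip
    have h2 : p.eval (Ty.size (.prod (.list b) a) (e :: l, s.1)) ≤
        p.eval (Ty.size (.prod (.list b) (.prod a (.list (.prod κ β)))) (e :: l, s)) :=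
      eval_mono p (by
        rw [size_prod (a := .list b), size_prod (a := .list b), size_prod (a := a)]
        simp only; omega)
    cases hd : decide (c.size (Vh ((e, l, s.1, recT p Vg Vh l s), s.2)) ≤
      p.eval (Ty.size (.prod (.list b) a) (e :: l, s.1)))
    · simp only [cond_false]
      omega
    · simp only [cond_true]
      rw [decide_eq_true_eq] at hd
      omega

open Classical in
/-- A function `F` computed with the oracle `B` is computed without this oracle by `V` from a table
`T` of queries with positive answers, provided that the answers given by the table are correct for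
the queries `Q (v, T)` made in this computation. The table need only be correct for the queries
`QF v` made in the computation with the oracle. -/
theorem exists_table (β : Ty) {B : Set κ.El} {F : a.El → b.El} (hF : PF B a b F) :
    ∃ (V : a.El × List (κ.El × β.El) → b.El) (Q : a.El × List (κ.El × β.El) → List κ.El)
      (QF : a.El → List κ.El),
      PF A (.prod a (.list (.prod κ β))) b V ∧ PF A (.prod a (.list (.prod κ β))) (.list κ) Q ∧
      PF B a (.list κ) QF ∧ ∀ v T,
        ((∀ q ∈ Q (v, T), inT q T = decide (q ∈ B)) → V (v, T) = F v) ∧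
        ((∀ q ∈ QF v, inT q T = decide (q ∈ B)) → ∀ q ∈ Q (v, T), q ∈ QF v) := by
  induction hF with
  | id a =>
    exact ⟨fun v => v.1, fun _ => [], fun _ => [], PF.fst _ _, PF.nil _ _, PF.nil _ _,
      fun v T => ⟨fun _ => rfl, fun _ q hq => by cases hq⟩⟩
  | comp hg hf ihg ihf =>
    obtain ⟨Vg, Qg, QFg, pVg, pQg, pQFg, hg'⟩ := ihg
    obtain ⟨Vf, Qf, QFf, pVf, pQf, pQFf, hf'⟩ := ihf
    have hm := pVf.pair (PF.snd _ _)
    refine ⟨fun z => Vg (Vf z, z.2), fun z => Qf z ++ Qg (Vf z, z.2), fun v => QFf v ++ QFg _,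
      pVg.comp hm, pQf.append (pQg.comp hm), pQFf.append (pQFg.comp hf), fun v T => ⟨?_, ?_⟩⟩
    · intro h
      have e1 := (hf' v T).1 fun q hq => h q (List.mem_append_left _ hq)
      have e2 : ∀ q ∈ Qg (Vf (v, T), T), inT q T = decide (q ∈ B) :=
        fun q hq => h q (List.mem_append_right _ hq)
      simp only
      rw [e1] at e2 ⊢
      exact (hg' _ T).1 e2
    · intro h q hq
      have e0 := (hf' v T).2 fun q hq => h q (List.mem_append_left _ hq)
      have e1 := (hf' v T).1 fun q hq => h q (List.mem_append_left _ (e0 q hq))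
      rcases List.mem_append.1 hq with hq | hq
      · exact List.mem_append_left _ (e0 q hq)
      · simp only at hq
        rw [e1] at hq
        exact List.mem_append_right _
          ((hg' _ T).2 (fun q hq => h q (List.mem_append_right _ hq)) q hq)
  | pair hf hg ihf ihg =>
    obtain ⟨Vg, Qg, QFg, pVg, pQg, pQFg, hg'⟩ := ihg
    obtain ⟨Vf, Qf, QFf, pVf, pQf, pQFf, hf'⟩ := ihf
    refine ⟨fun z => (Vf z, Vg z), fun z => Qf z ++ Qg z, fun v => QFf v ++ QFg v,
      pVf.pair pVg, pQf.append pQg, pQFf.append pQFg, fun v T => ⟨?_, ?_⟩⟩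
    · intro h
      simp only
      rw [(hf' v T).1 fun q hq => h q (List.mem_append_left _ hq),
        (hg' v T).1 fun q hq => h q (List.mem_append_right _ hq)]
    · intro h q hq
      rcases List.mem_append.1 hq with hq | hq
      · exact List.mem_append_left _
          ((hf' v T).2 (fun q hq => h q (List.mem_append_left _ hq)) q hq)
      · exact List.mem_append_right _
          ((hg' v T).2 (fun q hq => h q (List.mem_append_right _ hq)) q hq)
  | fst a b =>
    exact ⟨fun v => v.1.1, fun _ => [], fun _ => [], (PF.fst _ _).fst', PF.nil _ _, PF.nil _ _,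
      fun v T => ⟨fun _ => rfl, fun _ q hq => by cases hq⟩⟩
  | snd a b =>
    exact ⟨fun v => v.1.2, fun _ => [], fun _ => [], (PF.fst _ _).snd', PF.nil _ _, PF.nil _ _,
      fun v T => ⟨fun _ => rfl, fun _ q hq => by cases hq⟩⟩
  | tt a =>
    exact ⟨fun v => true, fun _ => [], fun _ => [], PF.tt _, PF.nil _ _, PF.nil _ _,
      fun v T => ⟨fun _ => rfl, fun _ q hq => by cases hq⟩⟩
  | ff a =>
    exact ⟨fun v => false, fun _ => [], fun _ => [], PF.ff _, PF.nil _ _, PF.nil _ _,
      fun v T => ⟨fun _ => rfl, fun _ q hq => by cases hq⟩⟩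
  | nil a b =>
    exact ⟨fun v => [], fun _ => [], fun _ => [], PF.nil _ _, PF.nil _ _, PF.nil _ _,
      fun v T => ⟨fun _ => rfl, fun _ q hq => by cases hq⟩⟩
  | cons a =>
    exact ⟨fun v => v.1.1 :: v.1.2, fun _ => [], fun _ => [],
      (PF.fst _ _).fst'.cons' (PF.fst _ _).snd', PF.nil _ _, PF.nil _ _,
      fun v T => ⟨fun _ => rfl, fun _ q hq => by cases hq⟩⟩
  | cond a =>
    exact ⟨fun v => bif v.1.1 then v.1.2.1 else v.1.2.2, fun _ => [], fun _ => [],
      (PF.fst _ _).fst'.cond' (PF.fst _ _).snd'.fst' (PF.fst _ _).snd'.snd', PF.nil _ _, PF.nil _ _,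
      fun v T => ⟨fun _ => rfl, fun _ q hq => by cases hq⟩⟩
  | query =>
    refine ⟨fun v => inT v.1 v.2, fun v => [v.1], fun v => [v],
      pf_inT (PF.fst _ _) (PF.snd _ _), (PF.fst _ _).cons' (PF.nil _ _), (PF.id _).cons' (PF.nil _ _),
      fun v T => ⟨fun h => h v (List.mem_singleton_self _), fun _ q hq => hq⟩⟩
  | @listRec a b c g h f p hg hh h0 h1 hb ihg ihh =>
    obtain ⟨Vg, Qg, QFg, pVg, pQg, pQFg, hg'⟩ := ihg
    obtain ⟨Vh, Qh, QFh, pVh, pQh, pQFh, hh'⟩ := ihh
    have hf : PF B (.prod (.list b) a) c f := PF.listRec p hg hh h0 h1 hb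
    let φ : b.El × List b.El × (a.El × List (κ.El × β.El)) → List κ.El := fun z =>
      Qh ((z.1, z.2.1, z.2.2.1, recT p Vg Vh z.2.1 z.2.2), z.2.2.2)
    let ψ : b.El × List b.El × a.El → List κ.El := fun z => QFh (z.1, z.2.1, z.2.2, f (z.2.1, z.2.2))
    have pφ : PF A (.prod b (.prod (.list b) (.prod a (.list (.prod κ β))))) (.list κ) φ :=
      pQh.comp (((PF.fst _ _).pair ((PF.snd _ _).fst'.pair ((PF.snd _ _).snd'.fst'.pair
        ((pf_recT p pVg pVh).comp (PF.snd _ _))))).pair (PF.snd _ _).snd'.snd')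
    have pψ : PF B (.prod b (.prod (.list b) a)) (.list κ) ψ :=
      pQFh.comp ((PF.fst _ _).pair ((PF.snd _ _).fst'.pair ((PF.snd _ _).snd'.pair
        (hf.comp (PF.snd _ _)))))
    let Q : (List b.El × a.El) × List (κ.El × β.El) → List κ.El := fun z =>
      Qg (z.1.2, z.2) ++ (scan φ (z.1.2, z.2) z.1.1).flatMap fun x => x
    let QF : List b.El × a.El → List κ.El := fun z =>
      QFg z.2 ++ (scan ψ z.2 z.1).flatMap fun x => x
    have pQ : PF A (.prod (.prod (.list b) a) (.list (.prod κ β))) (.list κ) Q := by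
      have e1 : PF A (.prod (.prod (.list b) a) (.list (.prod κ β))) (.prod a (.list (.prod κ β)))
          (fun z => (z.1.2, z.2)) := (PF.fst _ _).snd'.pair (PF.snd _ _)
      exact (pQg.comp e1).append (PF.flatMap (b := .list κ) (c := κ) (φ := fun z => z.1)
        (PF.scan pφ (PF.fst _ _).fst' e1) (PF.fst _ _))
    have pQF : PF B (.prod (.list b) a) (.list κ) QF :=
      (pQFg.comp (PF.snd _ _)).append (PF.flatMap (b := .list κ) (c := κ) (φ := fun z => z.1)
        (PF.scan pψ (PF.fst _ _) (PF.snd _ _)) (PF.fst _ _))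
    refine ⟨fun z => recT p Vg Vh z.1.1 (z.1.2, z.2), Q, QF,
      (pf_recT p pVg pVh).comp ((PF.fst _ _).fst'.pair ((PF.fst _ _).snd'.pair (PF.snd _ _))),
      pQ, pQF, ?_⟩
    have Qcons : ∀ e l s T q, q ∈ Q ((e :: l, s), T) ↔
        q ∈ Qh ((e, l, s, recT p Vg Vh l (s, T)), T) ∨ q ∈ Q ((l, s), T) := by
      intro e l s T q
      change q ∈ Qg (s, T) ++ ((φ (e, l, s, T)) :: scan φ (s, T) l).flatMap (fun x => x) ↔
        q ∈ φ (e, l, s, T) ∨ q ∈ Qg (s, T) ++ (scan φ (s, T) l).flatMap fun x => x
      rw [List.flatMap_cons, List.mem_append, List.mem_append, List.mem_append]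
      exact or_left_comm
    have QFcons : ∀ e l s q, q ∈ QF (e :: l, s) ↔ q ∈ QFh (e, l, s, f (l, s)) ∨ q ∈ QF (l, s) := by
      intro e l s q
      change q ∈ QFg s ++ ((ψ (e, l, s)) :: scan ψ s l).flatMap (fun x => x) ↔
        q ∈ ψ (e, l, s) ∨ q ∈ QFg s ++ (scan ψ s l).flatMap fun x => x
      rw [List.flatMap_cons, List.mem_append, List.mem_append, List.mem_append]
      exact or_left_comm
    have key1 : ∀ l s T, (∀ q ∈ Q ((l, s), T), inT q T = decide (q ∈ B)) →
        recT p Vg Vh l (s, T) = f (l, s) := by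
      intro l s T
      induction l with
      | nil =>
        intro h
        rw [h0]
        exact (hg' s T).1 fun q hq => h q (List.mem_append_left _ hq)
      | cons e l ih =>
        intro h
        have e1 := ih fun q hq => h q ((Qcons e l s T q).2 (Or.inr hq))
        have e2 : ∀ q ∈ Qh ((e, l, s, recT p Vg Vh l (s, T)), T), inT q T = decide (q ∈ B) :=
          fun q hq => h q ((Qcons e l s T q).2 (Or.inl hq))
        rw [e1] at e2
        have e3 := (hh' (e, l, s, f (l, s)) T).1 e2
        rw [recT, clip]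
        simp only
        rw [e1, e3, ← h1]
        rw [decide_eq_true (hb (e :: l, s)), cond_true]
    have key2 : ∀ l s T, (∀ q ∈ QF (l, s), inT q T = decide (q ∈ B)) →
        ∀ q ∈ Q ((l, s), T), q ∈ QF (l, s) := by
      intro l s T
      induction l with
      | nil =>
        intro h q hq
        rcases List.mem_append.1 hq with hq | hq
        · exact List.mem_append_left _
            ((hg' s T).2 (fun q hq => h q (List.mem_append_left _ hq)) q hq)
        · simp [scan] at hq
      | cons e l ih =>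
        intro h q hq
        have e0 := ih fun q hq => h q ((QFcons e l s q).2 (Or.inr hq))
        have e1 := key1 l s T fun q hq => h q ((QFcons e l s q).2 (Or.inr (e0 q hq)))
        rw [QFcons]
        rcases (Qcons e l s T q).1 hq with hq | hq
        · left
          rw [e1] at hq
          exact (hh' (e, l, s, f (l, s)) T).2 (fun q hq => h q ((QFcons e l s q).2 (Or.inl hq))) q hq
        · exact Or.inr (e0 q hq)
    rintro ⟨l, s⟩ T
    exact ⟨key1 l s T, key2 l s T⟩

end Pool.Agent.Lib.MP_2b5695_lc.Up
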